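import Pool.Agent.Helper82.NQ.St2

/-!
# Project NQ, module PRM: a prime repunit has prime length
-/

set_option autoImplicit false

namespace Pool.Agent.Helper41.NQ

open Finset Pool.Agent.Helper82.NQ

private theorem geo_mul (p u v : ℕ) : ∑ i ∈ range (u * v), p ^ i =
    (∑ i ∈ range u, p ^ i) * ∑ j ∈ range v, (p ^ u) ^ j := by
  induction v with
  | zero => simp
  | succ v ih =>
    rw [Nat.mul_succ, sum_range_add, ih, sum_range_succ, mul_add, ← pow_mul]
    congr 1
    rw [sum_mul]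
    refine sum_congr rfl fun i _ => ?_
    rw [pow_add, mul_comm]

private theorem geo_gt (q v : ℕ) (hq : 1 ≤ q) (hv : 2 ≤ v) : 1 < ∑ j ∈ range v, q ^ j := by
  obtain ⟨w, rfl⟩ : ∃ w, v = 2 + w := ⟨v - 2, by omega⟩
  rw [sum_range_add]
  have h : ∑ x ∈ range 2, q ^ x = 1 + q := by
    simp [sum_range_succ]
  rw [h]
  omega

theorem hPRM : StPRM := by
  intro p a hp ha hpr
  by_contra hn
  obtain ⟨m, hm, h2, hlt⟩ := Nat.exists_dvd_of_not_prime2 (by omega) hn
  obtain ⟨v, hv⟩ := hm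
  have hv2 : 2 ≤ v := by
    rcases v with _ | _ | v
    · omega
    · omega
    · omega
  have e : rep p a = (∑ i ∈ range m, p ^ i) * ∑ j ∈ range v, (p ^ m) ^ j := by
    rw [← geo_mul, ← hv]
    rfl
  have g1 := geo_gt p m (by omega) h2
  have g2 := geo_gt (p ^ m) v (Nat.one_le_pow _ _ (by omega)) hv2
  rw [e] at hpr
  exact Nat.not_prime_mul g1.ne' g2.ne' hpr

end Pool.Agent.Helper41.NQ
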